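import Pool.Agent.helper5.SYM.SpecB

set_option autoImplicit false

namespace Pool.Agent.SYM
open Finset CT Polynomial

theorem IV1_fin {V : Type} [Fintype V] (G : SimpleGraph V) : Finite G.Dart := by
  apply Finite.of_injective (fun d : G.Dart => (d.fst, d.snd))
  intro d d' h
  exact SimpleGraph.Dart.ext (h := h)

/-- fixed neighbours -/
theorem IV1_nbr {V : Type} [Fintype V] (G : SimpleGraph V) (σ : G ≃g G) (hG : FourRegular G)
    (hσ : ∀ v, σ (σ v) = v) (v w : V) (hv : σ v = v) (hw : σ w = w) (hvw : G.Adj v w) :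
    ∃ w', w' ≠ w ∧ σ w' = w' ∧ G.Adj v w' := by
  classical
  let f : Function.End {w // G.Adj v w} := fun x => ⟨σ x.1, by
    have h := (σ.map_rel_iff (a := v) (b := x.1)).2 x.2
    rwa [hv] at h⟩
  have hf : f ^ 2 ^ 1 = 1 := by
    rw [pow_one, pow_two]
    funext x
    apply Subtype.ext
    exact hσ x.1
  have h4 : Fintype.card {w // G.Adj v w} = 4 := by
    rw [← Nat.card_eq_fintype_card]
    exact hG v
  have hmod := Equiv.Perm.card_fixedPoints_modEq (p := 2) hf
  rw [h4] at hmod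
  by_contra hcon
  push Not at hcon
  have h1 : Fintype.card (Function.fixedPoints f) = 1 := by
    rw [Fintype.card_eq_one_iff]
    refine ⟨⟨⟨w, hvw⟩, Subtype.ext hw⟩, ?_⟩
    rintro ⟨⟨x, hx⟩, hx'⟩
    apply Subtype.ext
    apply Subtype.ext
    by_contra hne
    exact hcon x hne (congrArg Subtype.val hx') hx
  have h2 : (4 : ℕ) ≡ 1 [MOD 2] := by
    rw [← h1]
    exact hmod
  revert h2
  decide

theorem IV1 (hEQA : EQA_stmt) (hPRT : PRT_stmt) (hSPL : SPL_stmt) (hRES : RES_stmt) (hYF1 : YF1_stmt)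
    (hBG1 : BG1_stmt) (hEVF2 : EVF2_stmt) : IV1_stmt := by
  intro V _ _ G σ hG h7 hN3 hσ hfix hnf
  have hfinD : Finite G.Dart := IV1_fin G
  have hσ2 : ∀ v, σ (σ v) = v := hσ.1
  obtain ⟨-, hhom, hinv, hst⟩ := hYF1 V G σ hσ
  have hodd := (hEQA V (ZMod 2) G (th σ) ⟨1, by rw [Nat.card_eq_fintype_card, ZMod.card]; norm_num⟩ hhom).1 hN3
  -- choice of τ₀
  have hodd' : Odd (Nat.card {τ : G.Dart → G.Dart // IsTS τ ∧ Inv σ τ ∧ gav τ (fun _ => False) = 3}) := by
    have e : (fun τ : G.Dart → G.Dart => IsTS τ ∧ (∀ a, Inv (th σ a) τ) ∧ gav τ (fun _ => False) = 3) =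
        fun τ => IsTS τ ∧ Inv σ τ ∧ gav τ (fun _ => False) = 3 := by
      funext τ
      rw [hinv τ]
    have e2 := congrArg (fun P : (G.Dart → G.Dart) → Prop => Nat.card {τ // P τ}) e
    rw [← e2]
    exact hodd
  obtain ⟨τ₀, ⟨hτ₀, hτ₀i, hτ₀3⟩, hodd2⟩ := hPRT G.Dart
    (fun τ => IsTS τ ∧ Inv σ τ ∧ gav τ (fun _ => False) = 3) (fun d => sd σ d ≠ d) hodd'
  have hsymm : ∀ d : G.Dart, sd σ d.symm = (sd σ d).symm := fun d => rfl
  have hQs : ∀ d : G.Dart, sd σ d.symm = d.symm ↔ sd σ d = d := by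
    intro d
    rw [hsymm]
    constructor
    · intro h
      have h2 := congrArg SimpleGraph.Dart.symm h
      rwa [SimpleGraph.Dart.symm_symm, SimpleGraph.Dart.symm_symm] at h2
    · intro h
      rw [h]
  -- splitting
  have hsplit : ∀ τ : G.Dart → G.Dart, IsTS τ → Inv σ τ →
      gav τ (fun _ => False) = gav τ (fun d => sd σ d = d) + gav τ (fun d => ¬ sd σ d = d) := by
    intro τ hτ hτi
    have h := hSPL G.Dart (fun d => d.symm) τ (fun _ => False) (fun d => sd σ d = d) hQs (hst τ hτ hτi)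
    have e1 : (fun d : G.Dart => False ∨ sd σ d = d) = fun d => sd σ d = d := by
      funext d
      exact false_or _
    have e2 : (fun d : G.Dart => False ∨ ¬ sd σ d = d) = fun d => ¬ sd σ d = d := by
      funext d
      exact false_or _
    rw [e1, e2] at h
    exact h
  have hres : ∀ τ : G.Dart → G.Dart, IsTS τ → (∀ d, sd σ d = d → τ d = τ₀ d) →
      gav τ (fun d => ¬ sd σ d = d) = gav τ₀ (fun d => ¬ sd σ d = d) := by
    intro τ hτ hττ₀
    exact hRES G.Dart (fun d => d.symm) τ τ₀ (fun d => ¬ sd σ d = d) hτ.1 hτ₀.1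
      (fun d hd => hττ₀ d (not_not.1 hd))
  set c0 := gav τ₀ (fun d => ¬ sd σ d = d) with hc0
  have hs0 := hsplit τ₀ hτ₀ hτ₀i
  rw [hτ₀3, ← hc0] at hs0
  -- c0 ≥ 1
  have hc01 : 1 ≤ c0 := by
    obtain ⟨d₁, hd₁⟩ := hfix
    rw [hc0]
    unfold gav nav
    have hfinC : Finite (Cir (fun d : G.Dart => d.symm) τ₀) :=
      Finite.of_surjective (cir (fun d : G.Dart => d.symm) τ₀) (fun c => Quot.exists_rep c)
    have hne : Nonempty {c : Cir (fun d : G.Dart => d.symm) τ₀ //
        ∀ d : G.Dart, ¬ sd σ d = d → cir (fun d : G.Dart => d.symm) τ₀ d ≠ c} := by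
      refine ⟨⟨cir (fun d : G.Dart => d.symm) τ₀ d₁, ?_⟩⟩
      intro d hd hdd
      let g : Cir (fun d : G.Dart => d.symm) τ₀ → Prop := Quot.lift (fun d : G.Dart => sd σ d = d) (by
        rintro a b (h | h)
        · rw [h]
          exact propext (hQs a).symm
        · rw [h]
          exact propext (hst τ₀ hτ₀ hτ₀i a).symm)
      have h1 : g (cir (fun d : G.Dart => d.symm) τ₀ d) = g (cir (fun d : G.Dart => d.symm) τ₀ d₁) := by
        rw [hdd]
      have h2 : (sd σ d = d) = (sd σ d₁ = d₁) := h1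
      apply hd
      rw [h2]
      exact hd₁
    exact Nat.card_pos
  -- the odd count
  have hodd3 : Odd (Nat.card {τ : G.Dart → G.Dart // IsTS τ ∧ Inv σ τ ∧
      (∀ d, sd σ d = d → τ d = τ₀ d) ∧ gav τ (fun d => sd σ d = d) = 3 - c0}) := by
    have e : (fun τ : G.Dart → G.Dart => (IsTS τ ∧ Inv σ τ ∧ gav τ (fun _ => False) = 3) ∧
        ∀ d, ¬ (sd σ d ≠ d) → τ d = τ₀ d) =
        fun τ => IsTS τ ∧ Inv σ τ ∧ (∀ d, sd σ d = d → τ d = τ₀ d) ∧ gav τ (fun d => sd σ d = d) = 3 - c0 := by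
      funext τ
      apply propext
      constructor
      · rintro ⟨⟨h1, h2, h3⟩, h4⟩
        have h5 : ∀ d, sd σ d = d → τ d = τ₀ d := fun d hd => h4 d (not_not.2 hd)
        refine ⟨h1, h2, h5, ?_⟩
        have h6 := hsplit τ h1 h2
        rw [h3, hres τ h1 h5] at h6
        omega
      · rintro ⟨h1, h2, h5, h3⟩
        refine ⟨⟨h1, h2, ?_⟩, fun d hd => h5 d (not_not.1 hd)⟩
        rw [hsplit τ h1 h2, hres τ h1 h5, h3]
        omega
    have e2 := congrArg (fun P : (G.Dart → G.Dart) → Prop => Nat.card {τ // P τ}) e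
    rw [← e2]
    exact hodd2
  -- the quotient
  have hVne : Nonempty V := by
    rw [← Fintype.card_pos_iff]
    omega
  obtain ⟨R, J, K, C, e, α, hJ, hK, hR, hR1, -, -, hAdm, hcount⟩ := hBG1 V G σ hG hσ
  have hl0 : Function.Injective (l0 : V → V × Fin 3) := fun a b h => congrArg Prod.fst h
  have hKc : (K.image l0).card = K.card := card_image_of_injective _ hl0
  have hJc : (J.image l0).card = J.card := card_image_of_injective _ hl0
  have hKmem : ∀ v w : V, σ v = v → σ w = w → G.Adj v w → v ∈ K := by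
    intro v w hv hw hvw
    rw [hK]
    obtain ⟨d', hd', hd''⟩ := hnf v
    refine ⟨hv, ⟨⟨(v, w), hvw⟩, rfl, ?_⟩, d', hd', hd''⟩
    apply SimpleGraph.Dart.ext
    exact Prod.ext hv hw
  have hK3 : 3 ≤ K.card := by
    obtain ⟨d, hd⟩ := hfix
    have hv : σ d.fst = d.fst := congrArg (fun x : G.Dart => x.fst) hd
    have hw : σ d.snd = d.snd := congrArg (fun x : G.Dart => x.snd) hd
    obtain ⟨w', hw'ne, hw', hvw'⟩ := IV1_nbr G σ hG hσ2 d.fst d.snd hv hw d.adj
    have h1 := hKmem d.fst d.snd hv hw d.adj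
    have h2 := hKmem d.snd d.fst hw hv d.adj.symm
    have h3 := hKmem w' d.fst hw' hv hvw'.symm
    have hsub : ({d.fst, d.snd, w'} : Finset V) ⊆ K := by
      intro x hx
      simp only [mem_insert, mem_singleton] at hx
      rcases hx with rfl | rfl | rfl
      · exact h1
      · exact h2
      · exact h3
    have hc : ({d.fst, d.snd, w'} : Finset V).card = 3 :=
      card_eq_three.2 ⟨_, _, _, d.adj.ne, hvw'.ne, hw'ne.symm, rfl⟩
    rw [← hc]
    exact card_le_card hsub
  have hcoef := hEVF2 (V × Fin 3) (R.toList.map l0) C (J.image l0) (K.image l0) e α hAdm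
    (by rw [hKc]; omega) (by
      rw [hKc, hJc, List.length_map, Finset.length_toList]
      intro hJ0 hCK
      have hnfx : nfx σ ≤ K.card := by
        unfold nfx
        have hJe : J = ∅ := card_eq_zero.1 hJ0
        have hinc : ∀ v : V, σ v = v → v ∈ K := by
          intro v hv
          by_contra hvK
          have hvJ : v ∈ J := by
            rw [hJ]
            refine ⟨hv, fun d hd hdd => hvK ?_⟩
            rw [hK]
            obtain ⟨d', hd', hd''⟩ := hnf v
            exact ⟨hv, ⟨d, hd, hdd⟩, d', hd', hd''⟩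
          rw [hJe] at hvJ
          exact notMem_empty _ hvJ
        have h1 : Nat.card {v : V // σ v = v} ≤ Nat.card K :=
          Nat.card_le_card_of_injective (fun v : {v : V // σ v = v} => (⟨v.1, hinc v.1 v.2⟩ : K))
            (fun a b hab => Subtype.ext (congrArg (fun x : K => x.1) hab))
        rwa [Nat.card_eq_fintype_card (α := K), Fintype.card_coe] at h1
      omega) (3 - c0) (by omega)
  have hcnt := hcount τ₀ hτ₀ hτ₀i (3 - c0)
  rw [hcoef] at hcnt
  have h1 := (ZMod.natCast_eq_zero_iff_even).1 hcnt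
  exact (Nat.not_even_iff_odd.2 hodd3) h1

end Pool.Agent.SYM
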