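import Pool.Agent.helper5.SYM.SpecA

set_option autoImplicit false

namespace Pool.Agent.SYM
open Finset CT Polynomial

theorem L2_zero {W : Type} [DecidableEq W] (L : List W) : ∀ e : W × Fin 4 → W × Fin 4,
    NL (fun _ => 0) L e = 0 := by
  induction L with
  | nil => intro e; rfl
  | cons u L ih =>
    intro e
    show ∑ t : Fin 3, (if ls e u t = 0 then NL (fun _ => 0) L (sm e u t) else 0) = 0
    apply Finset.sum_eq_zero
    intro t _
    split_ifs
    · exact ih _
    · rfl

theorem L2_strand {W : Type} [DecidableEq W] (u : W) (E : Finset (W × Fin 4)) (e : W × Fin 4 → W × Fin 4)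
    (hE : E.card < 4) (hA : Act (dts {u} ∪ E) e) : ∃ i j, i ≠ j ∧ e (u, i) = (u, j) := by
  by_contra hcon
  push Not at hcon
  have hact : ∀ i : Fin 4, e (u, i) ≠ (u, i) := by
    intro i
    rw [hA.2]
    apply mem_union_left
    unfold dts
    rw [mem_product]
    exact ⟨mem_singleton_self _, mem_univ _⟩
  have hmem : ∀ i : Fin 4, e (u, i) ∈ E := by
    intro i
    have h1 : e (e (u, i)) ≠ e (u, i) := by
      rw [hA.1]
      exact (hact i).symm
    rw [hA.2, mem_union] at h1
    rcases h1 with h1 | h1
    · exfalso
      unfold dts at h1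
      rw [mem_product, mem_singleton] at h1
      have h2 : e (u, i) = (u, (e (u, i)).2) := Prod.ext h1.1 rfl
      apply hcon i (e (u, i)).2 _ h2
      intro h3
      apply hact i
      rw [h2, ← h3]
    · exact h1
  have hinj : Function.Injective (fun i : Fin 4 => e (u, i)) := by
    intro i j hij
    have h1 := congrArg e hij
    simp only [hA.1] at h1
    exact congrArg Prod.snd h1
  have h2 := Finset.card_le_card_of_injOn (s := (univ : Finset (Fin 4))) (t := E) (fun i => e (u, i))
    (fun i _ => hmem i) (fun i _ j _ h => hinj h)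
  rw [card_univ, Fintype.card_fin] at h2
  omega

theorem L2 (hNA : NA_stmt) (hNLC : NLC_stmt) (hIN : IN_stmt) : L2_stmt := by
  intro W _ R L E e hnd hEL hE hlen hA
  rcases List.eq_nil_or_concat L with h | ⟨L', u, h⟩
  · rw [h] at hlen
    simp at hlen
  · rw [List.concat_eq_append] at h
    subst h
    rw [List.nodup_append] at hnd
    obtain ⟨hnd', -, hdis⟩ := hnd
    have huL : u ∉ L' := fun hu => hdis u hu u (List.mem_singleton_self u) rfl
    rw [hNA W R L' [u] e, ← L2_zero L' e]
    refine hNLC W (NL R [u]) (fun _ => 0) L' (dts {u} ∪ E) e hnd' ?_ ?_ ?_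
    · intro x hx
      rw [mem_union] at hx
      rcases hx with hx | hx
      · unfold dts at hx
        rw [mem_product, mem_singleton] at hx
        rw [hx.1]
        exact huL
      · intro hxL
        exact hEL x hx (List.mem_append_left _ hxL)
    · have e1 : dts (L' ++ [u]).toFinset ∪ E = dts L'.toFinset ∪ (dts {u} ∪ E) := by
        rw [← union_assoc]
        congr 1
        unfold dts
        rw [List.toFinset_append, union_product]
        rfl
      rw [← e1]
      exact hA
    · intro e' he'
      obtain ⟨i, j, hij, h⟩ := L2_strand u E e' (by omega) he'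
      refine hIN W R u [] e' i j he'.1 (fun k => ?_) hij h
      rw [he'.2]
      apply mem_union_left
      unfold dts
      rw [mem_product]
      exact ⟨mem_singleton_self _, mem_univ _⟩

end Pool.Agent.SYM
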